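import Pool.Agent.Helper36.EV.Goals

/-!
helper59: packet GW of helper36: Gronwall and the existence theorem with a barrier.
-/

set_option autoImplicit false

open Set Filter Topology

namespace Pool.Agent.Helper59.EV

theorem gw1 (f f' : ℝ → ℝ) (a b τ : ℝ) (ha : 0 ≤ a) (hb : 0 ≤ b)
    (h : ∀ t ∈ Icc 0 τ, HasDerivWithinAt f (f' t) (Icc 0 τ) t ∧ f' t ≤ a * f t + b) :
    ∀ t ∈ Icc 0 τ, f t ≤ Real.exp (a * t) * (f 0 + b * t) := by
  intro t ht
  have h0 : (0 : ℝ) ∈ Icc 0 τ := ⟨le_refl _, ht.1.trans ht.2⟩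
  set g : ℝ → ℝ := fun s => Real.exp (-(a * s)) * f s - b * s with hg
  have hder : ∀ s ∈ Icc 0 τ, HasDerivWithinAt g
      ((Real.exp (-(a * s)) * (-a)) * f s + Real.exp (-(a * s)) * f' s - b) (Icc 0 τ) s := by
    intro s hs
    have h1 : HasDerivWithinAt (fun s => Real.exp (-(a * s))) (Real.exp (-(a * s)) * (-a))
        (Icc 0 τ) s := by
      have h2 : HasDerivAt (fun s => -(a * s)) (-a) s := by
        have h2' := ((hasDerivAt_id s).const_mul a).neg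
        rw [mul_one] at h2'
        exact h2'
      exact (h2.exp).hasDerivWithinAt
    have h3 : HasDerivWithinAt (fun s => b * s) b (Icc 0 τ) s := by
      simpa using ((hasDerivAt_id s).const_mul b).hasDerivWithinAt
    exact (h1.mul (h s hs).1).sub h3
  have hanti : AntitoneOn g (Icc 0 τ) := by
    apply antitoneOn_of_deriv_nonpos (convex_Icc 0 τ)
    · intro s hs
      exact (hder s hs).continuousWithinAt
    · intro s hs
      exact ((hder s (interior_subset hs)).differentiableWithinAt).mono interior_subset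
    · intro s hs
      have hs' := interior_subset hs
      have hmem : Icc (0 : ℝ) τ ∈ 𝓝 s := mem_interior_iff_mem_nhds.mp hs
      have h1 := ((hder s hs').hasDerivAt hmem).deriv
      rw [h1]
      have h2 := (h s hs').2
      have h3 : 0 < Real.exp (-(a * s)) := Real.exp_pos _
      have h4 : Real.exp (-(a * s)) ≤ 1 := by
        rw [Real.exp_le_one_iff]
        have := mul_nonneg ha hs'.1
        linarith
      nlinarith [mul_le_mul_of_nonneg_left h2 h3.le, mul_le_mul_of_nonneg_right h4 hb]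
  have h1 := hanti h0 ht ht.1
  simp only [hg, mul_zero, neg_zero, Real.exp_zero, one_mul, sub_zero] at h1
  have h2 : Real.exp (-(a * t)) * f t ≤ f 0 + b * t := by linarith
  have h3 : Real.exp (a * t) * Real.exp (-(a * t)) = 1 := by
    rw [← Real.exp_add, add_neg_cancel, Real.exp_zero]
  have h4 := mul_le_mul_of_nonneg_left h2 (Real.exp_pos (a * t)).le
  rw [← mul_assoc, h3, one_mul] at h4
  exact h4

section retract

variable {H : Type} [NormedAddCommGroup H] [NormedSpace ℝ H]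

/-- radial retraction -/
noncomputable def rp (ρ : ℝ) (h : H) : H := (ρ / max ρ ‖h‖) • h

lemma rp_norm {ρ : ℝ} (hρ : 0 < ρ) (h : H) : ‖rp ρ h‖ ≤ ρ := by
  unfold rp
  have hm : 0 < max ρ ‖h‖ := lt_of_lt_of_le hρ (le_max_left _ _)
  rw [norm_smul, Real.norm_eq_abs, abs_of_pos (div_pos hρ hm), div_mul_eq_mul_div,
    div_le_iff₀ hm]
  exact mul_le_mul_of_nonneg_left (le_max_right _ _) hρ.le

lemma rp_eq {ρ : ℝ} (hρ : 0 < ρ) (h : H) (hh : ‖h‖ ≤ ρ) : rp ρ h = h := by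
  unfold rp
  rw [max_eq_left hh, div_self hρ.ne', one_smul]

lemma rp_lip {ρ : ℝ} (hρ : 0 < ρ) (h k : H) : ‖rp ρ h - rp ρ k‖ ≤ 2 * ‖h - k‖ := by
  unfold rp
  have hm : 0 < max ρ ‖h‖ := lt_of_lt_of_le hρ (le_max_left _ _)
  have hn : 0 < max ρ ‖k‖ := lt_of_lt_of_le hρ (le_max_left _ _)
  have e : (ρ / max ρ ‖h‖) • h - (ρ / max ρ ‖k‖) • k
      = (ρ / max ρ ‖h‖) • (h - k) + (ρ / max ρ ‖h‖ - ρ / max ρ ‖k‖) • k := by
    rw [smul_sub, sub_smul]
    abel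
  rw [e]
  have h1 : ‖(ρ / max ρ ‖h‖) • (h - k)‖ ≤ ‖h - k‖ := by
    rw [norm_smul, Real.norm_eq_abs, abs_of_pos (div_pos hρ hm)]
    have : ρ / max ρ ‖h‖ ≤ 1 := (div_le_one hm).mpr (le_max_left _ _)
    nlinarith [norm_nonneg (h - k)]
  have h2 : ‖(ρ / max ρ ‖h‖ - ρ / max ρ ‖k‖) • k‖ ≤ ‖h - k‖ := by
    rw [norm_smul, Real.norm_eq_abs]
    have h3 : ρ / max ρ ‖h‖ - ρ / max ρ ‖k‖
        = ρ * (max ρ ‖k‖ - max ρ ‖h‖) / (max ρ ‖h‖ * max ρ ‖k‖) := by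
      field_simp
    have h4 : |max ρ ‖k‖ - max ρ ‖h‖| ≤ ‖h - k‖ := by
      have h5 := abs_max_sub_max_le_abs (‖k‖) (‖h‖) ρ
      rw [max_comm ρ ‖k‖, max_comm ρ ‖h‖]
      refine h5.trans ?_
      have := abs_norm_sub_norm_le k h
      rwa [norm_sub_rev] at this
    rw [h3, abs_div, abs_mul, abs_of_pos hρ, abs_of_pos (mul_pos hm hn), div_mul_eq_mul_div,
      div_le_iff₀ (mul_pos hm hn)]
    calc ρ * |max ρ ‖k‖ - max ρ ‖h‖| * ‖k‖ ≤ ρ * ‖h - k‖ * ‖k‖ := by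
          gcongr
      _ ≤ max ρ ‖h‖ * ‖h - k‖ * max ρ ‖k‖ := by
          gcongr
          · exact le_max_left _ _
          · exact le_max_right _ _
      _ = ‖h - k‖ * (max ρ ‖h‖ * max ρ ‖k‖) := by ring
  calc _ ≤ _ := norm_add_le _ _
    _ ≤ 2 * ‖h - k‖ := by linarith

end retract

theorem gw2 (H : Type) [NormedAddCommGroup H] [NormedSpace ℝ H] [CompleteSpace H]
    (Ψ : ℝ → H → H) (τ ρ : ℝ) (C U : Set H) (hτ : 0 < τ)
    (hcont : ContinuousOn (fun p : ℝ × H => Ψ p.1 p.2) (Icc 0 τ ×ˢ univ))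
    (hlip : ∀ a : ℝ, ∃ L : ℝ, ∀ t ∈ Icc 0 τ, ∀ h k : H, ‖h‖ ≤ a → ‖k‖ ≤ a →
      ‖Ψ t h - Ψ t k‖ ≤ L * ‖h - k‖)
    (hC : IsClosed C) (hU : IsOpen U) (hUC : U ⊆ C) (hCρ : C ⊆ Metric.closedBall 0 ρ)
    (h0U : (0 : H) ∈ U)
    (hbar : ∀ t1 ∈ Icc 0 τ, ∀ h : ℝ → H, h 0 = 0 →
      (∀ t ∈ Icc 0 t1, h t ∈ C ∧ HasDerivWithinAt h (Ψ t (h t)) (Icc 0 t1) t) → h t1 ∈ U) :
    ∃ h : ℝ → H, h 0 = 0 ∧
      ∀ t ∈ Icc 0 τ, h t ∈ C ∧ HasDerivWithinAt h (Ψ t (h t)) (Icc 0 τ) t := by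
  set r : ℝ := |ρ| + 1 with hr
  have hr0 : 0 < r := by positivity
  have hCr : ∀ h ∈ C, ‖h‖ ≤ r := by
    intro h hh
    have h1 := hCρ hh
    rw [mem_closedBall_zero_iff] at h1
    have := le_abs_self ρ
    linarith
  obtain ⟨L, hL⟩ := hlip r
  set L' : ℝ := |L| with hL'
  have hL'0 : 0 ≤ L' := abs_nonneg _
  have h00 : (0 : ℝ) ∈ Icc 0 τ := ⟨le_refl _, hτ.le⟩
  have hΨ : ∀ t ∈ Icc 0 τ, ∀ h k : H, ‖Ψ t (rp r h) - Ψ t (rp r k)‖ ≤ 2 * L' * ‖h - k‖ := by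
    intro t ht h k
    have h1 := hL t ht (rp r h) (rp r k) (rp_norm hr0 h) (rp_norm hr0 k)
    have h2 := rp_lip hr0 h k
    calc _ ≤ L * ‖rp r h - rp r k‖ := h1
      _ ≤ L' * ‖rp r h - rp r k‖ := mul_le_mul_of_nonneg_right (le_abs_self _) (norm_nonneg _)
      _ ≤ L' * (2 * ‖h - k‖) := mul_le_mul_of_nonneg_left h2 hL'0
      _ = 2 * L' * ‖h - k‖ := by ring
  have hct : ∀ x : H, ContinuousOn (fun t => Ψ t x) (Icc 0 τ) := by
    intro x
    have h1 : ContinuousOn (fun t : ℝ => ((t, x) : ℝ × H)) (Icc 0 τ) := by fun_prop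
    exact hcont.comp h1 (fun t ht => ⟨ht, mem_univ _⟩)
  obtain ⟨M0, hM0⟩ := isCompact_Icc.exists_bound_of_continuousOn (hct 0)
  set M : ℝ := |M0| + L' * r with hM
  have hMn : 0 ≤ M := by positivity
  have hbd : ∀ t ∈ Icc 0 τ, ∀ h : H, ‖Ψ t (rp r h)‖ ≤ M := by
    intro t ht h
    have h1 := hL t ht (rp r h) 0 (rp_norm hr0 h) (by simpa using hr0.le)
    have h2 := hM0 t ht
    rw [sub_zero] at h1
    have h3 : ‖Ψ t (rp r h)‖ ≤ ‖Ψ t (rp r h) - Ψ t 0‖ + ‖Ψ t 0‖ := by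
      have := norm_add_le (Ψ t (rp r h) - Ψ t 0) (Ψ t 0)
      rwa [sub_add_cancel] at this
    have h4 : L * ‖rp r h‖ ≤ L' * r :=
      mul_le_mul (le_abs_self _) (rp_norm hr0 h) (norm_nonneg _) hL'0
    have h5 : M0 ≤ |M0| := le_abs_self _
    rw [hM]
    linarith
  have hPL : IsPicardLindelof (fun t h => Ψ t (rp r h)) (tmin := 0) (tmax := τ) ⟨0, h00⟩ (0 : H)
      ⟨M * τ, by positivity⟩ 0 ⟨M, hMn⟩ ⟨2 * L', by positivity⟩ := by
    refine ⟨?_, ?_, ?_, ?_⟩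
    · intro t ht
      apply LipschitzOnWith.of_dist_le_mul
      intro x _ y _
      rw [dist_eq_norm, dist_eq_norm]
      exact hΨ t ht x y
    · intro x _
      exact hct (rp r x)
    · intro t ht x _
      exact hbd t ht x
    · simp only [NNReal.coe_zero, sub_zero, sub_self]
      rw [max_eq_left hτ.le]
      exact le_refl _
  obtain ⟨h, hh0, hh⟩ := hPL.exists_eq_forall_mem_Icc_hasDerivWithinAt₀
  have hh0' : h 0 = 0 := hh0
  have hhc : ContinuousOn h (Icc 0 τ) := fun t ht => (hh t ht).continuousWithinAt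
  -- the set of good times
  set T : Set ℝ := {t | t ∈ Icc 0 τ ∧ ∀ s ∈ Icc 0 t, h s ∈ C} with hT
  have h0T : (0 : ℝ) ∈ T := by
    refine ⟨h00, ?_⟩
    intro s hs
    have : s = 0 := le_antisymm hs.2 hs.1
    rw [this, hh0']
    exact hUC h0U
  have hTb : BddAbove T := ⟨τ, fun t ht => ht.1.2⟩
  set t1 := sSup T with ht1
  have ht1I : t1 ∈ Icc 0 τ := ⟨le_csSup hTb h0T, csSup_le ⟨0, h0T⟩ (fun t ht => ht.1.2)⟩
  have hbelow : ∀ s ∈ Ico 0 t1, h s ∈ C := by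
    intro s hs
    obtain ⟨t, htT, hst⟩ := exists_lt_of_lt_csSup ⟨0, h0T⟩ hs.2
    exact htT.2 s ⟨hs.1, hst.le⟩
  have hat : h t1 ∈ C := by
    rcases eq_or_lt_of_le ht1I.1 with he | hlt
    · rw [← he, hh0']
      exact hUC h0U
    · have h1 : ContinuousWithinAt h (Ico 0 t1) t1 :=
        (hhc t1 ht1I).mono (fun s hs => ⟨hs.1, hs.2.le.trans ht1I.2⟩)
      have h2 : t1 ∈ closure (Ico 0 t1) := by
        rw [closure_Ico hlt.ne]
        exact ⟨hlt.le, le_refl _⟩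
      have h3 := h1.mem_closure_image h2
      have h4 : h '' (Ico 0 t1) ⊆ C := by
        rintro _ ⟨s, hs, rfl⟩
        exact hbelow s hs
      exact closure_minimal h4 hC h3
  have hall : ∀ s ∈ Icc 0 t1, h s ∈ C := by
    intro s hs
    rcases eq_or_lt_of_le hs.2 with he | hlt
    · rw [he]; exact hat
    · exact hbelow s ⟨hs.1, hlt⟩
  have hder : ∀ t ∈ Icc 0 t1, h t ∈ C ∧ HasDerivWithinAt h (Ψ t (h t)) (Icc 0 t1) t := by
    intro t ht
    have htτ : t ∈ Icc 0 τ := ⟨ht.1, ht.2.trans ht1I.2⟩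
    have h1 := hh t htτ
    have h2 : rp r (h t) = h t := rp_eq hr0 _ (hCr _ (hall t ht))
    simp only [h2] at h1
    exact ⟨hall t ht, h1.mono (Icc_subset_Icc_right ht1I.2)⟩
  have hin := hbar t1 ht1I h hh0' hder
  have hend : t1 = τ := by
    by_contra hne
    have hlt : t1 < τ := lt_of_le_of_ne ht1I.2 hne
    have h1 : h ⁻¹' U ∈ 𝓝[Icc 0 τ] t1 := (hhc t1 ht1I) (hU.mem_nhds hin)
    rw [Metric.mem_nhdsWithin_iff] at h1
    obtain ⟨ε, hε, hball⟩ := h1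
    set t2 := min (t1 + ε / 2) τ with ht2
    have ht12 : t1 < t2 := lt_min (by linarith) hlt
    have ht2T : t2 ∈ T := by
      refine ⟨⟨ht1I.1.trans ht12.le, min_le_right _ _⟩, ?_⟩
      intro s hs
      rcases le_or_gt s t1 with hle | hgt
      · exact hall s ⟨hs.1, hle⟩
      · apply hUC
        apply hball
        refine ⟨?_, hs.1, hs.2.trans (min_le_right _ _)⟩
        rw [Metric.mem_ball, Real.dist_eq, abs_of_pos (by linarith)]
        have : s ≤ t1 + ε / 2 := hs.2.trans (min_le_left _ _)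
        linarith
    have := le_csSup hTb ht2T
    linarith
  refine ⟨h, hh0', ?_⟩
  rw [hend] at hder
  exact hder

/-- packet GW -/
theorem gw : Pool.Agent.Helper36.EV.G_GW :=
  ⟨gw1, fun H _ _ _ Ψ τ ρ C U h1 h2 h3 h4 h5 h6 h7 h8 h9 =>
    gw2 H Ψ τ ρ C U h1 h2 h3 h4 h5 h6 h7 h8 h9⟩

end Pool.Agent.Helper59.EV
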