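import Pool.Agent.Helper43.EV.Goals
import Pool.Agent.Lead.EvFinal

/-!
# Project EV (MP_d4e2f9_lc), packet EV-BND: the bound for decision trees
-/

set_option autoImplicit false
set_option linter.unusedSectionVars false

namespace Pool.Agent.Helper59.EV.BND

open Pool.Agent.Lead.Ev
open Pool.Agent.Helper43.EV

/-- a maximal invariant zero-set which contains a given one -/
theorem exists_max {V : Type} [Fintype V] [DecidableEq V] (f : Finset V → Bool)
    (H : Subgroup (Equiv.Perm V)) (A : Finset V) (h0 : f A = false)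
    (hA : ∀ σ ∈ H, fm σ A = A) :
    ∃ B : Finset V, A ⊆ B ∧ f B = false ∧ (∀ σ ∈ H, fm σ B = B) ∧
      ∀ F, B ⊂ F → (∀ σ ∈ H, fm σ F = F) → f F = true := by
  classical
  obtain ⟨B, hB, hmax⟩ := Finset.exists_max_image
    ((Finset.univ : Finset (Finset V)).filter
      (fun B => A ⊆ B ∧ f B = false ∧ ∀ σ ∈ H, fm σ B = B)) Finset.card
    ⟨A, by
      rw [Finset.mem_filter]
      exact ⟨Finset.mem_univ _, Finset.Subset.refl _, h0, hA⟩⟩
  rw [Finset.mem_filter] at hB
  refine ⟨B, hB.2.1, hB.2.2.1, hB.2.2.2, ?_⟩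
  intro F hF hinv
  by_contra hf
  have hf' : f F = false := by simpa using hf
  have := hmax F (by
    rw [Finset.mem_filter]
    exact ⟨Finset.mem_univ _, hB.2.1.trans hF.1, hf', hinv⟩)
  have h2 := Finset.card_lt_card hF
  omega

theorem t : Pool.Agent.Helper43.EV.BND := by
  intro p r hp hr G V _ _ _ _ h hF f hmono hnc hinv t ht
  classical
  by_contra hlt
  rw [not_le] at hlt
  have : Fact p.Prime := ⟨hp⟩
  have : Fact r.Prime := ⟨hr⟩
  let ρ : G →* Equiv.Perm V := MulAction.toPermHom G V
  have hρ : ∀ (g : G) (v : V), ρ g v = g • v := fun g v => rfl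
  have hGf : ∀ (g : G) (F : Finset V), f (ind (fm (ρ g) F)) = f (ind F) := by
    intro g F
    rw [← ind_comp, ← map_inv]
    exact hinv g⁻¹ (ind F)
  have hle : ∀ F F' : Finset V, F ⊆ F' → f (ind F') = false → f (ind F) = false := by
    intro F F' hs h0
    have := hmono (ind_le F F' hs)
    rw [h0] at this
    exact Bool.eq_false_of_le_false this
  have hbt : f (ind (∅ : Finset V)) = false ∧ f (ind (Finset.univ : Finset V)) = true := by
    obtain ⟨x, y, hxy⟩ := hnc
    have h1 : ∀ z : V → Bool, f (ind (∅ : Finset V)) ≤ f z := by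
      intro z
      apply hmono
      intro v
      simp [ind]
    have h2 : ∀ z : V → Bool, f z ≤ f (ind (Finset.univ : Finset V)) := by
      intro z
      apply hmono
      intro v
      simp only [ind, Finset.mem_univ, decide_true]
      exact Bool.le_true _
    constructor
    · by_contra hc
      have hc' : f (ind (∅ : Finset V)) = true := by simpa using hc
      apply hxy
      have e1 := h1 x
      have e2 := h1 y
      rw [hc'] at e1 e2
      rw [Bool.eq_true_of_true_le e1, Bool.eq_true_of_true_le e2]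
    · by_contra hc
      have hc' : f (ind (Finset.univ : Finset V)) = false := by simpa using hc
      apply hxy
      have e1 := h2 x
      have e2 := h2 y
      rw [hc'] at e1 e2
      rw [Bool.eq_false_of_le_false e1, Bool.eq_false_of_le_false e2]
  have key : ∀ A : Set V, Fz (OL p r) G V h A →
      ∀ B : Finset V, (B : Set V) ⊆ A → f (ind B) = false := by
    intro A hA
    induction hA with
    | empty =>
      intro B hB
      have : B = ∅ := by
        rw [← Finset.coe_eq_empty]
        exact Set.subset_empty_iff.mp hB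
      rw [this]
      exact hbt.1
    | sub hs _ ih => exact fun B hB => ih B (hB.trans hs)
    | tr g _ ih =>
      intro B hB
      rw [← hGf g⁻¹ B]
      apply ih
      intro x hx
      rw [Finset.mem_coe, fm_apply, Finset.mem_map] at hx
      obtain ⟨w, hw, rfl⟩ := hx
      obtain ⟨a, ha, rfl⟩ := hB hw
      show g⁻¹ • g • a ∈ _
      rw [inv_smul_smul]
      exact ha
    | @ext H A hK hAinv _ ih =>
      obtain ⟨P, C, hPC, hCH, hCn, hPn, hq, hcyc, hPp⟩ := hK
      have hmem : ∀ v : V, v ∈ (Finset.univ.filter (fun v => v ∈ A)) ↔ v ∈ A := by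
        intro v
        rw [Finset.mem_filter]
        exact ⟨fun h => h.2, fun h => ⟨Finset.mem_univ _, h⟩⟩
      have hAf : ∀ σ ∈ H.map ρ, fm σ (Finset.univ.filter (fun v => v ∈ A)) =
          Finset.univ.filter (fun v => v ∈ A) := by
        rintro _ ⟨g, hg, rfl⟩
        ext x
        rw [fm_apply, Finset.mem_map, hmem]
        constructor
        · rintro ⟨w, hw, rfl⟩
          exact hAinv g hg w ((hmem w).mp hw)
        · intro hx
          refine ⟨g⁻¹ • x, (hmem _).mpr (hAinv g⁻¹ (H.inv_mem hg) x hx), ?_⟩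
          show g • g⁻¹ • x = x
          rw [smul_inv_smul]
      obtain ⟨B, hAB, hB0, hBinv, hBmax⟩ := exists_max (fun F => f (ind F)) (H.map ρ)
        (Finset.univ.filter (fun v => v ∈ A)) (ih _ (fun v hv => (hmem v).mp hv)) hAf
      have hW : (Bᶜ).card ≤ t.depth := by
        apply main_lemma (fun F => f (ind F)) (fun F F' => hle F F') p r (P.map ρ) (C.map ρ)
          (H.map ρ) (Subgroup.map_mono hPC) (Subgroup.map_mono hCH) ?_ ?_ ?_ ?_ ?_ ?_ B hB0
          hBinv hBmax t (fun F => ht _)
        · rintro _ ⟨σ, hσ, rfl⟩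
          obtain ⟨k, hk⟩ := hPp σ hσ
          exact ⟨k, by rw [← map_pow, hk, map_one]⟩
        · rintro _ ⟨σ, hσ, rfl⟩ _ ⟨τ, hτ, rfl⟩
          exact ⟨σ * τ * σ⁻¹, hPn σ hσ τ hτ, by rw [map_mul, map_mul, map_inv]⟩
        · obtain ⟨σ, hσ, hc⟩ := hcyc
          refine ⟨ρ σ, ⟨σ, hσ, rfl⟩, ?_⟩
          rintro _ ⟨τ, hτ, rfl⟩
          obtain ⟨k, hk⟩ := hc τ hτ
          exact ⟨k, ⟨τ * σ ^ k, hk, by rw [map_mul, map_zpow]⟩⟩
        · rintro _ ⟨σ, hσ, rfl⟩ _ ⟨τ, hτ, rfl⟩
          exact ⟨σ * τ * σ⁻¹, hCn σ hσ τ hτ, by rw [map_mul, map_mul, map_inv]⟩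
        · rintro _ ⟨σ, hσ, rfl⟩
          obtain ⟨k, hk⟩ := hq σ hσ
          exact ⟨k, ⟨_, hk, by rw [map_pow]⟩⟩
        · rintro _ ⟨σ, _, rfl⟩ F
          exact hGf σ F
      intro B' hB'
      refine hle B' B ?_ hB0
      intro v hv
      rcases hB' hv with hvA | hvo
      · exact hAB ((hmem v).mpr hvA)
      · by_contra hvB
        have horbsub : MulAction.orbit H v ⊆ ((Bᶜ : Finset V) : Set V) := by
          rintro _ ⟨τ, rfl⟩
          rw [Finset.mem_coe, Finset.mem_compl]
          intro hm
          apply hvB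
          have h1 := hBinv (ρ (τ : G)) ⟨τ, τ.2, rfl⟩
          rw [← h1] at hm
          exact (mem_fm (ρ (τ : G)) B v).1 hm
        have h2 : h ≤ (MulAction.orbit H v).ncard := hvo
        have h3 := Set.ncard_le_ncard horbsub (Finset.finite_toSet _)
        rw [Set.ncard_coe_finset] at h3
        omega
  have := key Set.univ hF Finset.univ (Set.subset_univ _)
  rw [hbt.2] at this
  exact absurd this (by decide)

end Pool.Agent.Helper59.EV.BND
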